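import Pool.Agent.H81.Steiner4

set_option autoImplicit false

open MeasureTheory Set Pool.Agent.H81.Steiner

namespace Pool.Agent.Results.MP_497448_gt.NonUnique

def IsMinimizer {d : ℕ} (M : Set (EuclideanSpace ℝ (Fin d))) (r : ℝ)
    (S : Set (EuclideanSpace ℝ (Fin d))) : Prop :=
  IsCompact S ∧ IsConnected S ∧ M ⊆ Metric.cthickening r S ∧
    ∀ W : Set (EuclideanSpace ℝ (Fin d)), IsCompact W → IsConnected W →
      M ⊆ Metric.cthickening r W → Measure.hausdorffMeasure 1 S ≤ Measure.hausdorffMeasure 1 W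

def TT (s : ℝ) : Set E2 := segment ℝ (P 8723 (s * 5005)) (P 40678 0) ∪
  segment ℝ (P 8723 (s * 5005)) (P 0 (s * 24037)) ∪
  segment ℝ (P 8723 (s * 5005)) (P (-8723) (-(s * 5005))) ∪
  segment ℝ (P (-8723) (-(s * 5005))) (P (-40678) 0) ∪
  segment ℝ (P (-8723) (-(s * 5005))) (P 0 (-(s * 24037)))

lemma TT_le {s : ℝ} (hs : s = 1 ∨ s = -1) :
    Measure.hausdorffMeasure 1 (TT s) ≤ ((159014 : ℕ) : ENNReal) := by
  refine (measure_union_le _ _).trans ((add_le_add ((measure_union_le _ _).trans (add_le_add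
    ((measure_union_le _ _).trans (add_le_add ((measure_union_le _ _).trans (add_le_add
    (seg_le 33110 ?_) (seg_le 34099 ?_))) (seg_le 24596 ?_)))
    (seg_le 33110 ?_))) (seg_le 34099 ?_)).trans (by norm_num)) <;>
  rcases hs with rfl | rfl <;> norm_num

lemma TT_c (s : ℝ) : IsCompact (TT s) :=
  ((((seg_compact _ _).union (seg_compact _ _)).union (seg_compact _ _)).union
    (seg_compact _ _)).union (seg_compact _ _)

lemma TT_n (s : ℝ) : IsConnected (TT s) := by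
  refine IsConnected.union ⟨P (-8723) (-(s * 5005)), ?_⟩
    (IsConnected.union ⟨P (-8723) (-(s * 5005)), ?_⟩
    (IsConnected.union ⟨P 8723 (s * 5005), ?_⟩ (IsConnected.union ⟨P 8723 (s * 5005), ?_⟩
    (seg_conn _ _) (seg_conn _ _)) (seg_conn _ _)) (seg_conn _ _)) (seg_conn _ _) <;>
  simp [left_mem_segment, right_mem_segment]

def z8 : Fin 8 → ℤ × ℤ := ![(40678, 0), (0, 24037), (-40678, 0), (0, -24037), (40678, 0),
  (0, 24037), (-40678, 0), (0, -24037)]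

noncomputable def pZ (i : Fin 8) : E2 := P (z8 i).1 (z8 i).2
noncomputable def pM (i : Fin 8) : E2 := P (m9 i).1 (m9 i).2

lemma Z_TT {s : ℝ} (hs : s = 1 ∨ s = -1) (i : Fin 8) : pZ i ∈ TT s := by
  rcases hs with rfl | rfl <;> fin_cases i <;>
    simp [pZ, z8, TT, left_mem_segment, right_mem_segment]

lemma dsq (a b c d : ℝ) : dist (P a b) (P c d) ^ 2 = (a - c) ^ 2 + 3 * (b - d) ^ 2 := by
  have : P a b - P c d = P (a - c) (b - d) := by ext k; fin_cases k <;> simp [P, mul_sub]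
  rw [dist_eq_norm, this, ← real_inner_self_eq_norm_sq, P_inner]; ring

lemma M_sub : range pM ⊆ Metric.cthickening 60200 (TT 1) := by
  rintro _ ⟨i, rfl⟩
  refine Metric.mem_cthickening_of_dist_le _ _ _ _ (Z_TT (Or.inl rfl) i) (P_dist (by norm_num) ?_)
  fin_cases i <;> simp [z8, m9] <;> norm_num

lemma low {W : Set E2} (a : IsCompact W) (b : IsConnected W)
    (c : range pM ⊆ Metric.cthickening 60200 W) :
    ((159014 : ℕ) : ENNReal) ≤ Measure.hausdorffMeasure 1 W := by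
  refine low9 a b fun i => ?_
  have := c ⟨i, rfl⟩
  rw [a.cthickening_eq_biUnion_closedBall (by norm_num)] at this
  simpa [pM] using this

def G (x y : ℝ) : Prop := 24037 * x + 40678 * y ≤ 40678 * 24037 ∧
  (40678 - 57476.165) ^ 2 + 3 * 32967.67 ^ 2 ≤ (x - 57476.165) ^ 2 + 3 * (y - 32967.67) ^ 2

lemma A0 {x y X Y : ℝ} (g1 : G x y) (g2 : G x (-y))
    (u : (X - 40678) ^ 2 + 3 * Y ^ 2 ≤ X ^ 2 + 3 * (Y - 24037) ^ 2)
    (v : (X - 40678) ^ 2 + 3 * Y ^ 2 ≤ X ^ 2 + 3 * (Y + 24037) ^ 2)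
    (h : (X - x) ^ 2 + 3 * (Y - y) ^ 2 ≤ 60200 ^ 2) : (X - 40678) ^ 2 + 3 * Y ^ 2 ≤ 60200 ^ 2 := by
  have u' : 0 ≤ 78632423 + 81356 * X - 144222 * Y := by linarith
  have v' : 0 ≤ 78632423 + 81356 * X + 144222 * Y := by linarith
  rcases le_total X 57476.165 with k | k
  · nlinarith [mul_nonneg u' v', mul_nonneg (sub_nonneg.2 k) (add_nonneg u' v')]
  · rcases le_total 0 y with l | l
    · nlinarith [mul_nonneg u' l, mul_nonneg (sub_nonneg.2 k) (sub_nonneg.2 g1.1), g1.2]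
    · nlinarith [mul_nonneg v' (neg_nonneg.2 l), mul_nonneg (sub_nonneg.2 k) (sub_nonneg.2 g2.1),
        g2.2]

lemma A1 {x y X Y : ℝ} (g1 : G x y) (g2 : G (-x) y)
    (u : X ^ 2 + 3 * (Y - 24037) ^ 2 ≤ (X - 40678) ^ 2 + 3 * Y ^ 2)
    (v : X ^ 2 + 3 * (Y - 24037) ^ 2 ≤ (X + 40678) ^ 2 + 3 * Y ^ 2)
    (h : (X - x) ^ 2 + 3 * (Y - y) ^ 2 ≤ 60200 ^ 2) : X ^ 2 + 3 * (Y - 24037) ^ 2 ≤ 60200 ^ 2 := by
  have u' : 0 ≤ -78632423 - 81356 * X + 144222 * Y := by linarith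
  have v' : 0 ≤ -78632423 + 81356 * X + 144222 * Y := by linarith
  rcases le_total Y 32967.67 with k | k
  · nlinarith [mul_nonneg u' v', mul_nonneg (sub_nonneg.2 k) (add_nonneg u' v')]
  · rcases le_total 0 x with l | l
    · nlinarith [mul_nonneg u' l, mul_nonneg (sub_nonneg.2 k) (sub_nonneg.2 g1.1), g1.2]
    · nlinarith [mul_nonneg v' (neg_nonneg.2 l), mul_nonneg (sub_nonneg.2 k) (sub_nonneg.2 g2.1),
        g2.2]

lemma T1G {z : E2} (hz : z ∈ TT 1) : ∃ x y, z = P x y ∧ G x y ∧ G x (-y) ∧ G (-x) y ∧ G (-x) (-y) := by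
  rcases hz with (((h | h) | h) | h) | h <;> obtain ⟨t, t0, t1, e⟩ := mem_seg h <;>
    refine ⟨_, _, e, ⟨?_, ?_⟩, ⟨?_, ?_⟩, ⟨?_, ?_⟩, ⟨?_, ?_⟩⟩ <;>
    first
      | linarith
      | nlinarith [sq_nonneg t, sq_nonneg (1 - t)]

lemma nbhd : Metric.cthickening 60200 (TT 1) ⊆ Metric.cthickening 60200 (TT (-1)) := by
  intro w hw
  rw [(TT_c 1).cthickening_eq_biUnion_closedBall (by norm_num)] at hw
  obtain ⟨z, hz, h⟩ : ∃ z ∈ TT 1, dist w z ≤ 60200 := by simpa using hw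
  obtain ⟨x, y, rfl, g1, g2, g3, g4⟩ := T1G hz
  obtain ⟨X, Y, rfl⟩ : ∃ X Y, w = P X Y := ⟨w 0, w 1 / Real.sqrt 3, by
    ext k; fin_cases k <;> simp [P]; field_simp⟩
  have h2 : (X - x) ^ 2 + 3 * (Y - y) ^ 2 ≤ 60200 ^ 2 := by
    rw [← dsq]; exact pow_le_pow_left₀ dist_nonneg h 2
  have key : (X - 40678) ^ 2 + 3 * Y ^ 2 ≤ 60200 ^ 2 ∨ X ^ 2 + 3 * (Y - 24037) ^ 2 ≤ 60200 ^ 2 ∨
      (-X - 40678) ^ 2 + 3 * Y ^ 2 ≤ 60200 ^ 2 ∨ X ^ 2 + 3 * (-Y - 24037) ^ 2 ≤ 60200 ^ 2 := by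
    rcases le_total ((X - 40678) ^ 2 + 3 * Y ^ 2) (X ^ 2 + 3 * (Y - 24037) ^ 2) with a | a <;>
    rcases le_total ((X - 40678) ^ 2 + 3 * Y ^ 2) (X ^ 2 + 3 * (Y + 24037) ^ 2) with b | b <;>
    rcases le_total ((X + 40678) ^ 2 + 3 * Y ^ 2) (X ^ 2 + 3 * (Y - 24037) ^ 2) with c | c <;>
    rcases le_total ((X + 40678) ^ 2 + 3 * Y ^ 2) (X ^ 2 + 3 * (Y + 24037) ^ 2) with d | d <;>
    first
      | exact Or.inl (A0 g1 g2 (by linarith) (by linarith) h2)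
      | exact Or.inr (Or.inl (A1 g1 g3 (by linarith) (by linarith) h2))
      | exact Or.inr (Or.inr (Or.inl (A0 g3 g4 (by linarith) (by linarith) (by linarith))))
      | exact Or.inr (Or.inr (Or.inr (A1 g2 g4 (by linarith) (by linarith) (by linarith))))
  have f : ∀ i : Fin 8, (X - (z8 i).1) ^ 2 + 3 * (Y - (z8 i).2) ^ 2 ≤ 60200 ^ 2 →
      P X Y ∈ Metric.cthickening 60200 (TT (-1)) := fun i h =>
    Metric.mem_cthickening_of_dist_le _ _ _ _ (Z_TT (Or.inr rfl) i) (P_dist (by norm_num) h)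
  rcases key with k | k | k | k
  · exact f 0 (by simp [z8]; linarith)
  · exact f 1 (by simp [z8]; linarith)
  · exact f 2 (by simp [z8]; linarith)
  · exact f 3 (by simp [z8]; linarith)

theorem result : ∃ (d : ℕ) (M S S' : Set (EuclideanSpace ℝ (Fin d))) (r : ℝ),
    IsCompact M ∧ 0 < r ∧ (¬ ∃ c, M ⊆ Metric.closedBall c r) ∧ IsMinimizer M r S ∧
      IsMinimizer (Metric.cthickening r S) r S' ∧ S' ≠ S := by
  refine ⟨2, range pM, TT 1, TT (-1), 60200, (finite_range _).isCompact, by norm_num, ?_,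
    ⟨TT_c 1, TT_n 1, M_sub, fun W a b c => (TT_le (Or.inl rfl)).trans (low a b c)⟩,
    ⟨TT_c _, TT_n _, nbhd, fun W a b c => (TT_le (Or.inr rfl)).trans (low a b (M_sub.trans c))⟩,
    fun this => ?_⟩
  · rintro ⟨c, hc⟩
    have h0 := Metric.mem_closedBall.1 (hc ⟨0, rfl⟩)
    have h2 := Metric.mem_closedBall.1 (hc ⟨2, rfl⟩)
    have h3 := dist_triangle_right (pM 0) (pM 2) c
    have h4 : dist (pM 0) (pM 2) ^ 2 = 197556 ^ 2 + 3 * 18200 ^ 2 := by
      rw [pM, pM, dsq]; simp [m9]; norm_num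
    nlinarith [dist_nonneg (x := pM 0) (y := pM 2)]
  · have h1 : P 8723 (1 * 5005) ∈ TT (-1) := by
      rw [this]; simp [TT, left_mem_segment]
    rcases h1 with (((h | h) | h) | h) | h <;> obtain ⟨t, t0, t1, e⟩ := mem_seg h <;>
      have c := dsq _ _ _ _ ▸ congrArg (· ^ 2) (dist_eq_zero.2 e) <;> nlinarith

end Pool.Agent.Results.MP_497448_gt.NonUnique
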